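import Mathlib
import Pool.Agent.V5helper49.IR.Stm2

set_option autoImplicit false

/-! # Project IR, job UNB: unboundedness -/

namespace Pool.Agent.V5helper63.IR

open Finset MeasureTheory ProbabilityTheory Filter Topology
open scoped ENNReal
open Pool.Agent.V5helper49.IR

universe u

open Classical in
theorem rr_le (A : Set ℕ) (N k₀ n : ℕ) :
    rr k₀ n ((range N).filter (fun k => k ∈ A)) ≤
      {x : ℕ × ℕ | x.1 ∈ A ∧ x.2 ∈ A ∧ x.1 + x.2 = n}.ncard := by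
  have hfin : {x : ℕ × ℕ | x.1 ∈ A ∧ x.2 ∈ A ∧ x.1 + x.2 = n}.Finite := by
    refine (Finset.finite_toSet (HasAntidiagonal.antidiagonal n)).subset ?_
    rintro ⟨a, b⟩ ⟨-, -, h⟩
    rw [Finset.mem_coe, HasAntidiagonal.mem_antidiagonal]
    exact h
  unfold rr
  rw [← Set.ncard_coe_finset]
  refine Set.ncard_le_ncard_of_injOn (fun a => (a, n - a)) ?_ ?_ hfin
  · intro a ha
    rw [Finset.mem_coe, Finset.mem_filter, Finset.mem_filter, Finset.mem_filter] at ha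
    obtain ⟨⟨h1, h2⟩, h3, h4, h5, h6⟩ := ha
    exact ⟨h2, h6, by change a + (n - a) = n; omega⟩
  · intro a _ b _ hab
    exact (Prod.mk.inj hab).1

theorem t_UNB (hSCL : S_SCL2) (hTRF : S_TRF.{u}) : S_UNB.{u} := by
  classical
  intro Ω _ μ _ A hA hind hlim c hc hfreq
  rw [ae_all_iff]
  intro K
  obtain ⟨ε₀, hε₀, h⟩ := hSCL K c hc
  obtain ⟨k₀, hk₀⟩ := eventually_atTop.1 (hlim.eventually (ge_mem_nhds hε₀))
  obtain ⟨N₀, hN₀⟩ := h k₀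
  rw [ae_iff]
  by_contra hne
  have hpos : 0 < μ {ω | ¬ ∃ n : ℕ, K ≤ {x : ℕ × ℕ | x.1 ∈ A ω ∧ x.2 ∈ A ω ∧ x.1 + x.2 = n}.ncard} :=
    pos_iff_ne_zero.2 hne
  have htend : Tendsto (fun N : ℕ => ENNReal.ofReal (4 * (N : ℝ) ^ (-(1 / 20) : ℝ))) atTop (𝓝 0) := by
    have h1 : Tendsto (fun N : ℕ => 4 * (N : ℝ) ^ (-(1 / 20) : ℝ)) atTop (𝓝 (4 * 0)) :=
      ((tendsto_rpow_neg_atTop (by norm_num : (0 : ℝ) < 1 / 20)).comp
        tendsto_natCast_atTop_atTop).const_mul 4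
    rw [mul_zero] at h1
    have h2 := ENNReal.tendsto_ofReal h1
    rwa [ENNReal.ofReal_zero] at h2
  have hev := (htend.eventually (gt_mem_nhds hpos)).and (eventually_ge_atTop N₀)
  obtain ⟨N, hN1, hN2, hN3⟩ := (hfreq.and_eventually hev).exists
  have hp : ∀ k, 0 ≤ μ.real {ω | k ∈ A ω} ∧ μ.real {ω | k ∈ A ω} ≤ 1 :=
    fun k => ⟨measureReal_nonneg, measureReal_le_one⟩
  have hs := hN₀ N hN3 (fun k => μ.real {ω | k ∈ A ω}) hp (fun k hk => hk₀ k hk) hN1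
  obtain ⟨-, ht⟩ := hTRF μ A hA hind (N + 1)
    (fun B => ∀ n ∈ (range (2 * (N + 1)) : Finset ℕ), rr k₀ n B < K)
  have hle : μ.real {ω | ∀ n ∈ (range (2 * (N + 1)) : Finset ℕ),
      rr k₀ n ((range (N + 1)).filter (fun k => k ∈ A ω)) < K} ≤ 4 * (N : ℝ) ^ (-(1 / 20) : ℝ) := by
    refine le_trans (le_of_eq ?_) hs
    refine Eq.trans (Eq.trans ?_ ht) ?_
    · congr 1
    · congr 1
  have hsub : {ω | ¬ ∃ n : ℕ, K ≤ {x : ℕ × ℕ | x.1 ∈ A ω ∧ x.2 ∈ A ω ∧ x.1 + x.2 = n}.ncard} ⊆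
      {ω | ∀ n ∈ (range (2 * (N + 1)) : Finset ℕ),
        rr k₀ n ((range (N + 1)).filter (fun k => k ∈ A ω)) < K} := by
    intro ω hω n _
    have hω' : ¬ ∃ n : ℕ, K ≤ {x : ℕ × ℕ | x.1 ∈ A ω ∧ x.2 ∈ A ω ∧ x.1 + x.2 = n}.ncard := hω
    push Not at hω'
    exact lt_of_le_of_lt (rr_le (A ω) (N + 1) k₀ n) (hω' n)
  have hfinal : μ {ω | ¬ ∃ n : ℕ, K ≤ {x : ℕ × ℕ | x.1 ∈ A ω ∧ x.2 ∈ A ω ∧ x.1 + x.2 = n}.ncard} ≤
      ENNReal.ofReal (4 * (N : ℝ) ^ (-(1 / 20) : ℝ)) := by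
    refine (measure_mono hsub).trans ?_
    rw [← ofReal_measureReal (measure_ne_top _ _)]
    exact ENNReal.ofReal_le_ofReal hle
  exact absurd hfinal (not_le.2 hN2)

end Pool.Agent.V5helper63.IR
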